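import Pool.Agent.W587.MX.Stm

/-! Project MX (owner helper587), part S4_SHIFT: simple points can be moved a little. -/

set_option autoImplicit false

namespace Pool.Agent.W509.MX

open Set Filter Topology Metric
open Pool.Agent.W587.MX

theorem shift : S4_SHIFT := by
  rintro f fs K a0 z w hf hfs ⟨ha0, hinj, Z, W, hZ, hW, htie, hnc⟩ b ε hε
  have cZ : ∀ i, ContinuousAt (Z i) a0 := fun i => (hZ i).1.1.continuousAt
  have cW : ∀ i, ContinuousAt (W i) a0 := fun i => (hW i).1.1.continuousAt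
  have e1 : ∀ᶠ a in 𝓝 a0, a ≠ 0 := continuousAt_id.eventually_ne ha0
  have e2 : ∀ᶠ a in 𝓝 a0, ∀ i, AnalyticAt ℂ (Z i) a :=
    Filter.eventually_all.2 fun i => (hZ i).1.1.eventually_analyticAt
  have e3 : ∀ᶠ a in 𝓝 a0, ∀ i, AnalyticAt ℂ (W i) a :=
    Filter.eventually_all.2 fun i => (hW i).1.1.eventually_analyticAt
  have e4 : ∀ᶠ a in 𝓝 a0, ∀ i, f (Z i a) ≠ 0 ∧ Z i a * deriv f (Z i a) = a * f (Z i a) :=
    Filter.eventually_all.2 fun i => (hZ i).1.2
  have e5 : ∀ᶠ a in 𝓝 a0, ∀ i, fs (W i a) ≠ 0 ∧ W i a * deriv fs (W i a) = a * fs (W i a) :=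
    Filter.eventually_all.2 fun i => (hW i).1.2
  have e6 : ∀ᶠ a in 𝓝 a0, ∀ i j, Z i a * W i a = Z j a * W j a :=
    Filter.eventually_all.2 fun i => Filter.eventually_all.2 fun j => htie i j
  have e7 : ∀ᶠ a in 𝓝 a0, ∀ i j, i ≠ j → Z i a ≠ Z j a := by
    refine Filter.eventually_all.2 fun i => Filter.eventually_all.2 fun j => ?_
    by_cases hij : i = j
    · exact Filter.Eventually.of_forall fun a h => absurd hij h
    · have h0 : Z i a0 ≠ Z j a0 := by
        rw [(hZ i).2, (hZ j).2]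
        exact fun h => hij (hinj h)
      have h1 : Tendsto (fun a => (Z i a, Z j a)) (𝓝 a0) (𝓝 (Z i a0, Z j a0)) :=
        (cZ i).tendsto.prodMk_nhds (cZ j).tendsto
      have h2 : ∀ᶠ p : ℂ × ℂ in 𝓝 (Z i a0, Z j a0), p.1 ≠ p.2 :=
        (isOpen_ne_fun continuous_fst continuous_snd).mem_nhds h0
      filter_upwards [h1.eventually h2] with a ha _
      exact ha
  have e8 : ∀ᶠ a in 𝓝 a0, ∀ i, ‖Z i a - z i‖ < ε := by
    refine Filter.eventually_all.2 fun i => ?_
    have h := Metric.tendsto_nhds.1 (cZ i) ε hε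
    rw [(hZ i).2] at h
    filter_upwards [h] with a ha
    rwa [dist_eq_norm] at ha
  have e9 : ∀ᶠ a in 𝓝 a0, ∀ i, ‖W i a - w i‖ < ε := by
    refine Filter.eventually_all.2 fun i => ?_
    have h := Metric.tendsto_nhds.1 (cW i) ε hε
    rw [(hW i).2] at h
    filter_upwards [h] with a ha
    rwa [dist_eq_norm] at ha
  have e10 : ∀ᶠ a in 𝓝 a0, ∀ i, ‖Z i a * W i a - z i * w i‖ < ε := by
    refine Filter.eventually_all.2 fun i => ?_
    have h := Metric.tendsto_nhds.1 ((cZ i).mul (cW i)) ε hε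
    filter_upwards [h] with a ha
    rw [dist_eq_norm, Pi.mul_apply, Pi.mul_apply, (hZ i).2, (hW i).2] at ha
    exact ha
  have e11 : ∀ᶠ a in 𝓝 a0, ‖a - a0‖ < ε := by
    filter_upwards [Metric.ball_mem_nhds a0 hε] with a ha
    rwa [mem_ball, dist_eq_norm] at ha
  obtain ⟨r, hr, hball⟩ := Metric.eventually_nhds_iff_ball.1
    (e1.and (e2.and (e3.and (e4.and (e5.and (e6.and (e7.and (e8.and (e9.and (e10.and e11))))))))))
  obtain ⟨a1, ha1, hab⟩ : ∃ a1 ∈ ball a0 r, a1 ≠ b := by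
    by_cases h : a0 = b
    · refine ⟨a0 + (r / 2 : ℝ), ?_, ?_⟩
      · rw [mem_ball, dist_eq_norm]
        have : a0 + ((r / 2 : ℝ) : ℂ) - a0 = ((r / 2 : ℝ) : ℂ) := by ring
        rw [this, Complex.norm_real, Real.norm_eq_abs, abs_of_pos (by positivity)]
        linarith
      · rw [h]
        intro h2
        have h3 : ((r / 2 : ℝ) : ℂ) = 0 := by
          have := congrArg (fun x => x - b) h2
          simpa using this
        have h4 : r / 2 = 0 := by exact_mod_cast h3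
        linarith
    · exact ⟨a0, mem_ball_self hr, h⟩
  have hnb : ball a0 r ∈ 𝓝 a1 := isOpen_ball.mem_nhds ha1
  have hnb0 : ball a0 r ∈ 𝓝 a0 := ball_mem_nhds a0 hr
  obtain ⟨p1, p2, p3, p4, p5, p6, p7, p8, p9, p10, p11⟩ := hball a1 ha1
  refine ⟨a1, fun i => Z i a1, fun i => W i a1, ⟨p1, ?_, Z, W, ?_, ?_, ?_, ?_⟩, hab, p11,
    fun i => ⟨p8 i, p9 i, p10 i⟩⟩
  · intro i j hij
    by_contra hne
    exact p7 i j hne hij
  · intro i
    refine ⟨⟨p2 i, ?_⟩, rfl⟩
    filter_upwards [hnb] with a ha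
    exact (hball a ha).2.2.2.1 i
  · intro i
    refine ⟨⟨p3 i, ?_⟩, rfl⟩
    filter_upwards [hnb] with a ha
    exact (hball a ha).2.2.2.2.1 i
  · intro i j
    filter_upwards [hnb] with a ha
    exact (hball a ha).2.2.2.2.2.1 i j
  · intro i hi
    have hA : AnalyticOnNhd ℂ (fun a => Z i a * W i a) (ball a0 r) := fun a ha =>
      ((hball a ha).2.1 i).mul ((hball a ha).2.2.1 i)
    have hB : AnalyticOnNhd ℂ (fun _ : ℂ => Z i a1 * W i a1) (ball a0 r) := fun a _ =>
      analyticAt_const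
    have hE : EqOn (fun a => Z i a * W i a) (fun _ : ℂ => Z i a1 * W i a1) (ball a0 r) :=
      hA.eqOn_of_preconnected_of_eventuallyEq hB (convex_ball a0 r).isPreconnected ha1 hi
    apply hnc i
    have h0 := hE (mem_ball_self hr)
    simp only at h0
    rw [(hZ i).2, (hW i).2] at h0
    filter_upwards [hnb0] with a ha
    have := hE ha
    simp only at this
    rw [this, h0]

end Pool.Agent.W509.MX
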